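import Mathlib
import Pool.Agent.Lib.helper13.Zc

set_option autoImplicit false

namespace Pool.Agent.Results.MP_664f87_an.Counter

open Polynomial Pool.Agent.Lib.H13Zc

/-- Integer data for a polynomial of degree 36. -/
def d : ℕ → ℤ := fun k => [619343205309, -15616459199639, 245462769380547, -2708133069383681,
  22505836563618243, -147496653167670476, 786914246615078117, -3497339296716806660,
  13174112098472827773, -42623824768151991241, 119687906940801233892, -294098298844713362678,
  636541880097197323527, -1219885337251611341046, 2078526331562053574570,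
  -3158779816854049252197, 4291824737724316669637, -5222040726816560693732,
  5695611090646786762104, -5570457942385538781191, 4883901395770686250100,
  -3834985121736071641672, 2692659662472078109760, -1686545386657116044537,
  939350195273658842727, -463298234324486829600, 201270140582717956820, -76495327909468879877,
  25215673844769939259, -7129465329292164056, 1704049162972699314, -337663606775816814,
  53987194174830888, -6692777153014219, 603684515982984, -35247907232667,
  1000000000000].getD k 0

/-- Coefficients. -/
def c (k : ℕ) : ℚ := d k / k.factorial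

/-- The reciprocal sequence. -/
def lam (k : ℕ) : ℚ := k.factorial / (1 + k + k ^ 2)

theorem neg : ∑ i ∈ Finset.range 37, ∑ j ∈ Finset.range 37, lam (i + j) * (c i * c j) + 1 < 0 := by
  decide +kernel

theorem eval_act_add (γ : ℕ → ℝ) (f g : ℝ[X]) : act γ (f + g) = act γ f + act γ g := by
  ext k; simp [coeff_act, mul_add]

theorem act_sum (γ : ℕ → ℝ) {ι : Type} (s : Finset ι) (f : ι → ℝ[X]) :
    act γ (∑ i ∈ s, f i) = ∑ i ∈ s, act γ (f i) := by
  ext k; simp [coeff_act, Finset.mul_sum]

theorem act_monomial (γ : ℕ → ℝ) (k : ℕ) (a : ℝ) : act γ (monomial k a) = monomial k (γ k * a) := by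
  ext j
  simp only [coeff_act, coeff_monomial]
  split_ifs with h
  · rw [h]
  · simp

theorem result : ¬ IsCZDS fun k => (1 + k + k ^ 2 : ℝ) / k.factorial := by
  intro h
  let r : ℝ[X] := ∑ i ∈ Finset.range 37, monomial i (c i : ℝ)
  let f := act (fun k => (lam k : ℝ)) (r * r + 1)
  have hl : ∀ k, (0 : ℝ) < lam k := fun k => by
    simp only [lam]; push_cast; positivity
  have h1 : act (fun k => (1 + k + k ^ 2 : ℝ) / k.factorial) f = r * r + 1 := by
    ext k
    rw [coeff_act, coeff_act, ← mul_assoc]
    have : ((1 + k + k ^ 2 : ℝ) / k.factorial) * lam k = 1 := by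
      simp only [lam]; push_cast; field_simp
    rw [this, one_mul]
  have hpos : ∀ x, 0 < (r * r + 1).eval x := fun x => by
    rw [eval_add, eval_mul, eval_one]; nlinarith [mul_self_nonneg (r.eval x)]
  have h2 := h f
  have h3 := Zc_add f
  have h4 := Zc_add (r * r + 1)
  rw [h1] at h2
  rw [natDegree_act fun k => (hl k).ne'] at h3
  rw [Multiset.eq_zero_of_forall_notMem fun x hx => (hpos x).ne' (mem_roots'.1 hx).2] at h4
  have h0 : 0 < f.eval 0 := by
    rw [← coeff_zero_eq_eval_zero, coeff_act, coeff_zero_eq_eval_zero]
    exact mul_pos (hl 0) (hpos 0)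
  have h5 : f.eval 1 < 0 := by
    have e : f.eval 1 = ((∑ i ∈ Finset.range 37, ∑ j ∈ Finset.range 37,
        lam (i + j) * (c i * c j) + 1 : ℚ) : ℝ) := by
      simp only [f, r, Finset.sum_mul_sum, monomial_mul_monomial, eval_act_add, act_sum,
        act_monomial, ← monomial_zero_one, eval_add, eval_finsetSum, eval_monomial]
      simp [lam]
    rw [e]
    exact_mod_cast neg
  obtain ⟨x, -, hx⟩ := intermediate_value_Icc' zero_le_one f.continuous.continuousOn
    ⟨h5.le, h0.le⟩
  have : x ∈ f.roots := mem_roots'.2 ⟨fun e => by simp [e] at h0, hx⟩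
  have := Multiset.card_pos_iff_exists_mem.2 ⟨x, this⟩
  rw [Multiset.card_zero] at h4
  omega

end Pool.Agent.Results.MP_664f87_an.Counter
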